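import Pool.Agent.V5helper23.KP.EllAny

/-!
# Elliott's conjecture with a displaced factor near a twisted Liouville function: EVERY shift, corrected by very few
elements of an ARBITRARY set which meets every interval `[x, l x]`

For every shift `h₀` and every set `A` of integers which meets every interval `[x, l x]` (for example the powers of two,
or any sequence with bounded ratios) there are at most `C (log log N) ^ 2` elements of `A` with sum `σ` such that for ALL
the shifts `h` near `h₀ + σ` and ALL the multiplicative functions `f` near a twisted Liouville function the correlations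
`∑ n ≤ x, F 1 (n + s 1) ⋯ F r (n + s r) f(n + h)` with arbitrary functions `F 1, ..., F r` bounded by `1` (or with any
system of `log ^ T N` weights bounded by `log ^ T N`, and linear forms `α n + h`) are small.

Definitions used:
* `Pool.Agent.R459.Tw.NearTwist δ B₁ Q f`: `f` is a multiplicative function bounded by `1`, and for some Dirichlet
  character `χ` of modulus `q ≤ Q` and some real `|t| ≤ Q` the sum of `|f p + χ p * p ^ (i t)| / p ^ (1 - δ)` over the
  primes `p` is at most `B₁`;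
* `Pool.Agent.R459.Ell.ext f`: the extension by zero of `f` to the integers.

The proof: the approximation of `f` by the Liouville function (`Pool.Agent.R459.Ell.pass`, starting files), with which
the assertion is reduced to the correlations of the Liouville function with a power of `log N` of weights and small
translations (`Pool.Agent.V5helper23.KP.shift_wt`), and the theorem of the starting files for fixed weights
(`Pool.Agent.Y885.las_fine`).
-/

set_option autoImplicit false

namespace Pool.Agent.Results.MP_f3f922_nt.ElementsOfAnySet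

open Finset
open Pool.Agent.R459.Tw (NearTwist)
open Pool.Agent.R459.Ell (ext)

/-- The shift `y` is good: for ALL the integers `h` with `|h - y| ≤ log ^ W N`, ALL the multiplicative functions `f` near
a twisted Liouville function (parameters `δ`, `B₁`, `log ^ T N`), all the indices `j` and all `x` with `α j * x ≤ B N` the
sum of `g j n * f (α j * n + h)` over the `n ≤ x` is at most `N / log ^ U N` in absolute value. -/
def Good (δ B₁ : ℝ) (T W U B N : ℕ) {M : ℕ} (α : Fin M → ℕ) (g : Fin M → ℕ → ℂ) (y : ℕ) : Prop :=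
  ∀ h : ℤ, |((h - y : ℤ) : ℝ)| ≤ Real.log N ^ W → ∀ f : ℕ → ℂ, NearTwist δ B₁ (Real.log N ^ T) f →
    ∀ j, ∀ x : ℕ, α j * x ≤ B * N → ‖∑ n ∈ Icc 1 x, g j n * ext f (((α j * n : ℕ) : ℤ) + h)‖ ≤ N / Real.log N ^ U

/-- Let `δ > 0`, `B₁`, `l ≥ 2`, `P ≥ 1`, `T`, `W`, `U` and `B` be fixed. There is a constant `C`, and for every `H` there is
an `N₀`, with the following property. Let `A` be an arbitrary set of integers which contains an element of every interval
`[x, l x]`, `x ≥ 1` (`C` and `N₀` do not depend on `A`), let `N ≥ N₀`, and let `0 ≤ h₀ ≤ B N` be an ARBITRARY integer.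

(1) Let `α j ≥ 1` and the functions `g j`, bounded by `log ^ T N`, be arbitrary (at most `log ^ T N` of them). Then there is a
set `S` of at most `C (log log N) ^ 2` elements of `A`, all between `log ^ H N` and `N / log ^ H N` and with a sum `σ`
divisible by `P`, such that the shift `h₀ + σ` is good: for ALL the integers `h` with `|h - (h₀ + σ)| ≤ log ^ W N`, ALL the
`1`-bounded multiplicative functions `f` such that `∑ |f p + χ p * p ^ (i t)| / p ^ (1 - δ) ≤ B₁` (the sum over the primes)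
for some Dirichlet character `χ` of modulus at most `log ^ T N` and some `|t| ≤ log ^ T N`, all `j` and all
`x ≤ B N / α j`, `|∑ n ≤ x, g j n * f (α j * n + h)| ≤ N / log ^ U N`.

(2) In particular, if `F 1, ..., F r` are arbitrary functions bounded by `1` (for example multiplicative ones) and
`s 1, ..., s r` arbitrary integers, there is such a set `S` with
`|∑ n ≤ x, F 1 (n + s 1) ⋯ F r (n + s r) * f (n + h)| ≤ N / log ^ U N` for all these `h` and `f` and all `x ≤ B N`. -/
theorem result (δ B₁ : ℝ) (hδ : 0 < δ) (l P T W U B : ℕ) (hl : 2 ≤ l) (hP : 1 ≤ P) : ∃ C : ℝ, ∀ H : ℕ, ∃ N₀ : ℕ,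
    ∀ A : Set ℕ, (∀ x : ℕ, 1 ≤ x → ∃ a ∈ A, x ≤ a ∧ a ≤ l * x) → ∀ N : ℕ, N₀ ≤ N → ∀ h₀ : ℕ, h₀ ≤ B * N →
    (∀ M : ℕ, (M : ℝ) ≤ Real.log N ^ T → ∀ (α : Fin M → ℕ) (g : Fin M → ℕ → ℂ), (∀ j, 1 ≤ α j) →
      (∀ j n, 1 ≤ n → α j * n ≤ B * N → ‖g j n‖ ≤ Real.log N ^ T) →
      ∃ S : Finset ℕ, (∀ u ∈ S, u ∈ A ∧ Real.log N ^ H ≤ u ∧ (u : ℝ) ≤ N / Real.log N ^ H) ∧
        (S.card : ℝ) ≤ C * Real.log (Real.log N) ^ 2 ∧ P ∣ ∑ u ∈ S, u ∧
        Good δ B₁ T W U B N α g (h₀ + ∑ u ∈ S, u)) ∧
    (∀ (r : ℕ) (F : Fin r → ℤ → ℂ) (s : Fin r → ℤ), (∀ j m, ‖F j m‖ ≤ 1) →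
      ∃ S : Finset ℕ, (∀ u ∈ S, u ∈ A ∧ Real.log N ^ H ≤ u ∧ (u : ℝ) ≤ N / Real.log N ^ H) ∧
        (S.card : ℝ) ≤ C * Real.log (Real.log N) ^ 2 ∧ P ∣ ∑ u ∈ S, u ∧
        ∀ h : ℤ, |((h - ((h₀ + ∑ u ∈ S, u : ℕ) : ℤ) : ℤ) : ℝ)| ≤ Real.log N ^ W →
          ∀ f : ℕ → ℂ, NearTwist δ B₁ (Real.log N ^ T) f → ∀ x : ℕ, x ≤ B * N →
            ‖∑ n ∈ Icc 1 x, (∏ j, F j (n + s j)) * ext f ((n : ℤ) + h)‖ ≤ N / Real.log N ^ U) := by
  obtain ⟨C, hC⟩ := Pool.Agent.V5helper23.KP.las_ell δ B₁ hδ l P T W U B hl hP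
  refine ⟨C, fun H => ?_⟩
  obtain ⟨N₀, h1⟩ := hC H
  obtain ⟨N₁, h2⟩ := Pool.Agent.H373R2.T7.ev_L' 1
  refine ⟨N₀ + N₁, fun A hA N hN h₀ hh₀ => ⟨fun M hM α g hα hg => ?_, fun r F s hF => ?_⟩⟩
  · exact h1 A hA N (by omega) h₀ hh₀ M hM α g hα hg
  · have hL := h2 N (by omega)
    have hT : (1 : ℝ) ≤ Real.log N ^ T := one_le_pow₀ hL
    obtain ⟨S, s1, s2, s3, s4⟩ := h1 A hA N (by omega) h₀ hh₀ 1 (by simpa using hT) (fun _ => 1)
      (fun _ n => ∏ j, F j (n + s j)) (fun _ => le_rfl) (by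
        intro _ n _ _
        rw [norm_prod]
        exact le_trans (prod_le_one (fun i _ => norm_nonneg _) fun i _ => hF i _) hT)
    refine ⟨S, s1, s2, s3, fun h hh f hf x hx => ?_⟩
    have := s4 h hh f hf 0 x (by simpa using hx)
    simpa using this

end Pool.Agent.Results.MP_f3f922_nt.ElementsOfAnySet
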