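import Pool.Agent.V5helper23.KP.Ell

/-!
# Elliott's conjecture with a displaced factor near a twisted Liouville function: ALL progressions with almost all
differences, ALL companions

For almost all differences `u` the following holds for EVERY arithmetic progression with the difference `u`, even of a
length which is only a power of `log N`, and for ALL companions `F 1, ..., F r` bounded by `1` (for example multiplicative
ones) at ANY shifts `s 1, ..., s r`: for all members `y` of the progression, up to few, all `h` near `y` and ALL the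
multiplicative functions `f` near a twisted Liouville function the correlations
`∑ k ≤ x, F 1 (k + s 1) ⋯ F r (k + s r) f(k + h)` are small. The exceptional set of differences depends neither on the
progression nor on the functions.

Definitions used:
* `Pool.Agent.V5helper23.KP.Long`, `Pool.Agent.V5helper23.KP.Short`: the two kinds of families of patterns;
* `Pool.Agent.H373R2.T7.energy p n r`: the additive energy of order `p` of `r 1, ..., r n`: the number of solutions of
  `r (m 1) + ... + r (m p) = r (m' 1) + ... + r (m' p)`;
* `Pool.Agent.R459.Tw.NearTwist δ B₁ Q f`: `f` is a multiplicative function bounded by `1`, and for some Dirichlet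
  character `χ` of modulus `q ≤ Q` and some real `|t| ≤ Q` the sum of `|f p + χ p * p ^ (i t)| / p ^ (1 - δ)` over the
  primes `p` is at most `B₁`;
* `Pool.Agent.R459.Ell.ext f`: the extension by zero of `f` to the integers.

The proof: the approximation of `f` by the Liouville function (`Pool.Agent.R459.Ell.pass`, from the starting files); by
the inequality of Cauchy and Schwarz the large spectrum of the differences of two members of the patterns is thin
(`Pool.Agent.V5helper23.KP.sum_near`, `Pool.Agent.V5helper23.KP.dif_law`); by the second moment method of the starting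
files (`Pool.Agent.Y885.tl_probZ`) the shifts of the Liouville function by two members of a pattern are nearly orthogonal
for almost all pairs; the rest is duality (`Pool.Agent.V5helper23.KP.many_pairs`).
-/

set_option autoImplicit false

namespace Pool.Agent.Results.MP_f3f922_nt.LineFamilies

open Finset
open Pool.Agent.V5helper23.KP (Long Short)
open Pool.Agent.R459.Tw (NearTwist)
open Pool.Agent.R459.Ell (ext)

/-- The integer `h` is bad for the function `G`: for SOME multiplicative function `f` near a twisted Liouville function
and some `x ≤ N` the sum of `G(k) f(k + h)` over `k ≤ x` is larger than `N / log ^ U N`. -/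
def Bad (δ B₁ : ℝ) (T U N : ℕ) (G : ℕ → ℂ) (h : ℤ) : Prop :=
  ∃ f : ℕ → ℂ, NearTwist δ B₁ (Real.log N ^ T) f ∧ ∃ x ≤ N,
    (N : ℝ) / Real.log N ^ U < ‖∑ k ∈ Icc 1 x, G k * ext f ((k : ℤ) + h)‖

open Classical in
/-- For EVERY function `G` with `|G(k)| ≤ log ^ T N` for `k ≤ N` the number of the `w ∈ S` such that there is a bad
integer `h` with `|h - c(w)| ≤ log ^ W N` is at most `#S / log ^ U N`. -/
def Good (δ B₁ : ℝ) (T W U N : ℕ) (c : ℤ → ℤ) (S : Finset ℤ) : Prop :=
  ∀ G : ℕ → ℂ, (∀ k ∈ Icc 1 N, ‖G k‖ ≤ Real.log N ^ T) →
    ((S.filter (fun w => ∃ h : ℤ, |((h - c w : ℤ) : ℝ)| ≤ Real.log N ^ W ∧ Bad δ B₁ T U N G h)).card : ℝ) ≤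
      S.card / Real.log N ^ U

open Classical in
/-- The number of the `1 ≤ m ≤ n` for which there is ANY integer `a` such that the pattern `a + b(w) + r(m) w`, `w ∈ S`,
lies in `[-N / 2, N / 2]` and does not have the property `Good`. -/
noncomputable def exceptions (δ B₁ : ℝ) (T W U N n : ℕ) (b : ℤ → ℤ) (r : ℕ → ℤ) (S : Finset ℤ) : ℕ :=
  ((Icc 1 n).filter (fun m => ∃ a : ℤ, (∀ w ∈ S, 2 * |a + b w + r m * w| ≤ N) ∧
    ¬ Good δ B₁ T W U N (fun w => a + b w + r m * w) S)).card

/-- Let `δ > 0`, `B₁`, `T`, `W` and `U` be fixed. There is a constant `B`, and for all `C` and `p` there is a constant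
`B'`, such that the following holds for every large `N`.

Consider the patterns `a + b(w) + r(m) w`, `w ∈ S`, for `1 ≤ m ≤ n`, where the translation `a` and the function `b` are
arbitrary and the differences `r(m)` and the set `S` of integers are of one of the following kinds: either (`Long`) the
differences are the elements of an interval of `n ≥ log ^ B' N` integers, and `S`, with at least `log ^ B N` elements, is
a subset of relative density at least `1 / log ^ C N` of an interval of at least `N / (n log ^ C N)` integers; or
(`Short`) the differences `|r(m)| ≤ N` are arbitrary integers of nearly minimal additive energy of order `p` (by the last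
assertion one may take the values `r(m) = f(m)` of any nonconstant polynomial, `n` at least `(N / log ^ C N) ^ (1 / deg f)`)
and `S` has at least `log ^ B N` elements and diameter at most `2 log ^ C N`. For `b = 0`, `S = {1, ..., l}` the patterns
are the arithmetic progressions with `l` terms and the difference `r(m)`; `l` may be as small as `log ^ B N`.

For all but at most `n / log ^ U N` of the `m ≤ n` the following holds for EVERY integer `a` for which the pattern lies in
`[-N / 2, N / 2]` and EVERY function `G` with `|G(k)| ≤ log ^ T N` for `k ≤ N`, for example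
`G(k) = F 1 (k + s 1) ⋯ F r (k + s r)` with functions `F 1, ..., F r` bounded by `1` and arbitrary shifts: all the members
`y` of the pattern, with at most `#S / log ^ U N` exceptions, have the property that for ALL the integers `h` with
`|h - y| ≤ log ^ W N`, ALL the `1`-bounded multiplicative functions `f` such that
`∑ |f p + χ p * p ^ (i t)| / p ^ (1 - δ) ≤ B₁` (the sum over the primes) for some Dirichlet character `χ` of modulus at
most `log ^ T N` and some `|t| ≤ log ^ T N`, and all `x ≤ N`, `|∑ k ≤ x, G(k) f(k + h)| ≤ N / log ^ U N`. -/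
theorem result (δ B₁ : ℝ) (hδ : 0 < δ) (T W U : ℕ) :
    (∃ B : ℕ, ∀ C p : ℕ, ∃ B' N₀ : ℕ, ∀ N : ℕ, N₀ ≤ N →
      ∀ (n : ℕ) (r : ℕ → ℤ) (S : Finset ℤ), (Long B B' C N n r S ∨ Short p B C N n r S) → ∀ b : ℤ → ℤ,
      (exceptions δ B₁ T W U N n b r S : ℝ) ≤ n / Real.log N ^ U) ∧
    (∀ f : Polynomial ℤ, 1 ≤ f.natDegree → ∃ p : ℕ, ∀ C : ℕ, ∃ N₀ : ℕ, ∀ N : ℕ, N₀ ≤ N → ∀ n : ℕ,
      (N : ℝ) ≤ Real.log N ^ C * (n : ℝ) ^ f.natDegree →
      (Pool.Agent.H373R2.T7.energy p n (fun m => f.eval (m : ℤ)) : ℝ) * N ≤ Real.log N ^ (C + 1) * (n : ℝ) ^ (2 * p)) := by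
  classical
  refine ⟨?_, Pool.Agent.V5helper23.KP.poly_energy⟩
  obtain ⟨B, hB⟩ := Pool.Agent.V5helper23.KP.ell_core δ B₁ hδ T W U
  refine ⟨B, fun C p => ?_⟩
  obtain ⟨B', X₀, h⟩ := hB C p
  refine ⟨B', X₀, fun N hN n r S hfam b => ?_⟩
  refine h N (by omega) n r S hfam b _ (filter_subset _ _) ?_
  intro m hm
  rw [mem_filter] at hm
  obtain ⟨_, a, g1, g2⟩ := hm
  unfold Good at g2
  push Not at g2
  obtain ⟨G, g3, g4⟩ := g2
  refine ⟨a, G, g1, g3, _, filter_subset _ _, g4, ?_⟩
  intro w hw
  rw [mem_filter] at hw
  obtain ⟨_, k, g5, f, g6, x, g7, g8⟩ := hw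
  exact ⟨k, g5, f, g6, x, g7, g8⟩

end Pool.Agent.Results.MP_f3f922_nt.LineFamilies
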