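import Pool.Agent.V5helper42.EP.Fin3

/-!
# Tao's question for one arbitrary function against twisted characters with large twists

The asymptotic form of Elliott's conjecture, with the threshold `A x ^ k` for `k + 1` functions, holds when all the
functions but one, at any position, are close to `χ(n) n ^ (i t)` at the primes above a fixed bound, where the
moduli are bounded and the twists may be as large as a fixed power of `x`.

The proof: the Turán–Kubilius inequality replaces the companions by `n ^ (i t)` times periodic functions; the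
moments `∑ t_j a_j ^ i` of the twists decide between cancellation by the Kátai–Bourgain–Sarnak–Ziegler criterion and
van der Corput's inequality (large moments), and Halász's theorem at one scale in residue classes on short blocks
(bounded moments). From the starting repository: the Kátai criterion (`Pool.Agent.W699.TLKat`), the Halász-type
estimates of `Pool.Agent.Y868.VR` and `Pool.Agent.Y290.LT`, the comparison of a multiplicative function with its
smooth part (`Pool.Agent.W290.TL`).
-/

set_option autoImplicit false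

namespace Pool.Agent.Results.MP_f3f922_nt.OneArbitraryLargeTwists

/-- The sum over the primes `P < p ≤ x` of `(1 - Re (f(p) conj (χ(p) p ^ (i t)))) / p`; for `P = 0` it is
`𝔻(f, χ(n) n ^ (i t); x) ^ 2`. -/
noncomputable def distSq (f : ArithmeticFunction ℂ) {q : ℕ} (χ : DirichletCharacter ℂ q) (t : ℝ) (P : ℕ)
    (x : ℝ) : ℝ :=
  ∑ p ∈ (Finset.Ioc P ⌊x⌋₊).filter Nat.Prime,
    (1 - (f p * (starRingEnd ℂ) (χ (p : ZMod q) * (p : ℂ) ^ ((t : ℂ) * Complex.I))).re) / (p : ℝ)

/-- For distinct shifts and `ε > 0` there is `η > 0` such that for all `C`, `P` there is `A₀` with: if `A ≥ A₀`,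
`x ≥ A`, the `f i` are multiplicative into the unit disc, `f 0` is at distance at least `A` from `χ(n) n ^ (i t)` for
all `χ` of modulus at most `A` and all `|t| ≤ A x ^ k`, and for some `i₀` every `f j` with `j ≠ i₀` satisfies
`∑_{P < p ≤ x} (1 - Re (f j(p) conj (χ(p) p ^ (i t)))) / p ≤ η` for some `χ` of modulus at most `P` and some
`|t| ≤ x ^ C` (which may depend on `x` and on the functions), then the correlation of the `k + 1` functions up to `x`
is at most `ε`. The function `f i₀` is arbitrary if `i₀ ≠ 0`, and subject only to the hypothesis of the question if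
`i₀ = 0`. -/
theorem result : ∀ (k : ℕ) (h : Fin (k + 1) → ℕ), Function.Injective h →
    ∀ ε : ℝ, 0 < ε → ∃ η : ℝ, 0 < η ∧ ∀ C P : ℕ, ∃ A₀ : ℝ, ∀ A : ℝ, 2 ≤ A → A₀ ≤ A → ∀ x : ℝ, A ≤ x →
    ∀ f : Fin (k + 1) → ArithmeticFunction ℂ,
      (∀ i, (f i).IsMultiplicative) → (∀ i n, ‖f i n‖ ≤ 1) →
      (∀ q : ℕ, 1 ≤ q → (q : ℝ) ≤ A → ∀ χ : DirichletCharacter ℂ q, ∀ t : ℝ, |t| ≤ A * x ^ k →
        A ≤ Real.sqrt (distSq (f 0) χ t 0 x)) →
      (∃ i₀ : Fin (k + 1), ∀ j, j ≠ i₀ → ∃ q : ℕ, 1 ≤ q ∧ q ≤ P ∧ ∃ χ : DirichletCharacter ℂ q, ∃ t : ℝ,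
        |t| ≤ x ^ C ∧ distSq (f j) χ t P x ≤ η) →
      ‖∑ n ∈ Finset.Icc 1 ⌊x⌋₊, ∏ i, f i (n + h i)‖ / x ≤ ε := by
  intro k h hinj ε hε
  have hone := fun i₀ => Pool.Agent.V5helper42.EP.main_one k h hinj i₀ ε hε
  choose η hη hmain using hone
  have hne : (Finset.univ : Finset (Fin (k + 1))).Nonempty := Finset.univ_nonempty
  refine ⟨Finset.univ.inf' hne η, ?_, fun C P => ?_⟩
  · rw [Finset.lt_inf'_iff]
    exact fun i _ => hη i
  choose A₀ hA₀ using fun i₀ => hmain i₀ C P
  refine ⟨Finset.univ.sup' hne A₀, fun A hA2 hA x hx f hf1 hf2 hyp hcomp => ?_⟩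
  obtain ⟨i₀, hi₀⟩ := hcomp
  have hx0 : 0 < x := by linarith
  rw [div_le_iff₀ hx0]
  refine hA₀ i₀ A ((Finset.le_sup' A₀ (Finset.mem_univ i₀)).trans hA) x hx f
    (fun i => ⟨hf1 i, hf2 i⟩) hyp ?_
  intro j hj
  obtain ⟨q, hq1, hqP, χ, t, ht, hd⟩ := hi₀ j hj
  exact ⟨q, hq1, hqP, χ, t, ht, hd.trans (Finset.inf'_le η (Finset.mem_univ i₀))⟩

end Pool.Agent.Results.MP_f3f922_nt.OneArbitraryLargeTwists
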