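import Pool.Agent.V5helper23.KP.EllFam
import Pool.Agent.TH823.Fam.Fam2

/-!
# Elliott's conjecture with a displaced factor near a twisted Liouville function: ALL the shifts near almost all members
of arbitrary thin families of integers of nearly minimal additive energy, for example of the values of a polynomial at
the primes, and ALL the functions near a twisted Liouville function

Definitions used, besides the ones of this file:
* `Pool.Agent.R459.Tw.NearTwist δ B₁ Q f`: `f` is a multiplicative function bounded by `1`, and for some Dirichlet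
  character `χ` of modulus `q ≤ Q` and some real `|t| ≤ Q` the sum of `|f p + χ p * p ^ (i t)| / p ^ (1 - δ)` over the
  primes `p` is at most `B₁`;
* `Pool.Agent.R459.Ell.ext f`: the extension by zero of `f` to the integers.

The proof: the approximation of `f` by the Liouville function (`Pool.Agent.R459.Ell.pass`), Davenport's theorem with
arbitrary powers of the logarithm (`Pool.Agent.H373R2.T7`) and the estimate for families of nearly minimal energy
(`Pool.Agent.R459.fam_near_fin`), all from the starting files.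
-/

set_option autoImplicit false

namespace Pool.Agent.Results.MP_f3f922_nt.ThinFamilies

open Finset
open Pool.Agent.R459.Tw (NearTwist)
open Pool.Agent.R459.Ell (ext)

/-- The weights for the parameters `N`, `B`, `T`: at most `log ^ T N` indices `j`, the coefficients `α j ≥ 1`, and
arbitrary functions `g j` bounded by `log ^ T N` at the `n` with `α j * n ≤ B N`. -/
def Weights (N B T : ℕ) {M : ℕ} (α : Fin M → ℕ) (g : Fin M → ℕ → ℂ) : Prop :=
  (M : ℝ) ≤ Real.log N ^ T ∧ (∀ j, 1 ≤ α j) ∧ ∀ j n, 1 ≤ n → α j * n ≤ B * N → ‖g j n‖ ≤ Real.log N ^ T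

/-- The integer `z` is good: for ALL the multiplicative functions `f` near a twisted Liouville function (parameters `δ`,
`B₁`, `log ^ T N`), all the indices `j` and all `x` with `α j * x ≤ B N` the sum of `g j n * f (α j * n + z)` over the
`n ≤ x` is at most `N / log ^ U N` in absolute value. -/
def Good (δ B₁ : ℝ) (T U B N : ℕ) {M : ℕ} (α : Fin M → ℕ) (g : Fin M → ℕ → ℂ) (z : ℤ) : Prop :=
  ∀ f : ℕ → ℂ, NearTwist δ B₁ (Real.log N ^ T) f →
    ∀ j, ∀ x : ℕ, α j * x ≤ B * N → ‖∑ n ∈ Icc 1 x, g j n * ext f (((α j * n : ℕ) : ℤ) + z)‖ ≤ N / Real.log N ^ U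

/-- The additive energy of order `p` of a finite family of integers `v i`: the number of solutions of
`v (a 1) + ... + v (a p) = v (b 1) + ... + v (b p)`. -/
noncomputable def energy (p : ℕ) {ι : Type} [Fintype ι] (v : ι → ℤ) : ℕ :=
  Nat.card {q : (Fin p → ι) × (Fin p → ι) // ∑ j, v (q.1 j) = ∑ j, v (q.2 j)}

open Classical in
/-- The number of the members `v i` of the family such that some integer `z` at a distance of at most `D` from `v i`
does not have the property `P`. -/
noncomputable def exceptions {ι : Type} [Fintype ι] (v : ι → ℤ) (D : ℝ) (P : ℤ → Prop) : ℝ :=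
  ((univ.filter fun i => ∃ z : ℤ, |((z - v i : ℤ) : ℝ)| ≤ D ∧ ¬ P z).card : ℝ)

theorem general (δ B₁ : ℝ) (hδ : 0 < δ) (p B B' C T W U : ℕ) (hBB : B ≤ B') : ∃ N₀ : ℕ, ∀ N : ℕ, N₀ ≤ N →
    ∀ (ι : Type) [Fintype ι] (v : ι → ℤ),
    (∀ i, |v i| ≤ B' * N) → (energy p v : ℝ) * N ≤ Real.log N ^ C * (Fintype.card ι : ℝ) ^ (2 * p) →
    ∀ (M : ℕ) (α : Fin M → ℕ) (g : Fin M → ℕ → ℂ), Weights N B T α g →
      exceptions v (Real.log N ^ W) (Good δ B₁ T U B N α g) ≤ Fintype.card ι / Real.log N ^ U := by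
  classical
  obtain ⟨N₀, h0⟩ := Pool.Agent.V5helper23.KP.fam_ell δ B₁ hδ p B B' C T W U hBB
  refine ⟨N₀, fun N hN ι _ v hv hE M α g hw => ?_⟩
  unfold exceptions
  refine h0 N hN ι v hv hE M hw.1 α g hw.2.1 hw.2.2 _ ?_
  intro i hi hcon
  obtain ⟨z, hz, hbad⟩ := (mem_filter.1 hi).2
  exact hbad fun f hf j x hx => hcon z hz f hf j x hx

/-- the energy of a subfamily -/
lemma energy_sub (p x : ℕ) (s : ℕ → ℤ) (M : Finset ℕ) (hM : M ⊆ Icc 1 x) :
    energy p (fun m : {m // m ∈ M} => s m) ≤ Pool.Agent.H373R2.T7.energy p x s := by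
  classical
  unfold energy Pool.Agent.H373R2.T7.energy
  rw [Nat.card_eq_fintype_card, Fintype.card_subtype]
  apply card_le_card_of_injOn (fun q => (fun j => ((q.1 j : {m // m ∈ M}) : ℕ), fun j => ((q.2 j : {m // m ∈ M}) : ℕ)))
  · intro q hq
    rw [mem_coe, mem_filter] at hq
    rw [mem_coe, mem_filter, mem_product, Fintype.mem_piFinset, Fintype.mem_piFinset]
    exact ⟨⟨fun j => hM (q.1 j).2, fun j => hM (q.2 j).2⟩, hq.2⟩
  · intro q _ q' _ h2
    simp only [Prod.mk.injEq] at h2
    apply Prod.ext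
    · funext j
      exact Subtype.ext (congrFun h2.1 j)
    · funext j
      exact Subtype.ext (congrFun h2.2 j)

/-- Let `δ > 0`, `B₁`, `W`, `B`, `C`, `T`, `U` be fixed and let `N` be large. The weights `g j` are as in `Weights`: for
example one index, `α = 1` and `g(n) = F 1 (n + s 1) ⋯ F r (n + s r)` with ARBITRARY functions `F 1, ..., F r` bounded by
`1` (multiplicative or not) and arbitrary integers `s 1, ..., s r`.

(1) Let `p` be fixed and let `v i`, `i ∈ ι`, be an ARBITRARY finite family of integers with `|v i| ≤ B N`, with an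
additive energy of order `p` of at most `log ^ C N` times `#ι ^ (2 p) / N` (up to the power of the logarithm this is
the minimal size of the energy; the family may have as few as `N ^ (1 / p)` members). Then for all the `i`, up to a
proportion of at most `1 / log ^ U N` of them, ALL the integers `z` with `|z - v i| ≤ log ^ W N` are good: for ALL the
`1`-bounded multiplicative functions `f` such that `∑ |f p + χ p * p ^ (i t)| / p ^ (1 - δ) ≤ B₁` (the sum over the primes)
for some Dirichlet character `χ` of modulus at most `log ^ T N` and some `|t| ≤ log ^ T N`, all `j` and all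
`x ≤ B N / α j`, `|∑ n ≤ x, g j n * f (α j * n + z)| ≤ N / log ^ U N`.

(2) In particular this holds for `v m = c + f m`, where `f` is a fixed polynomial of degree `d ≥ 1` with integer
coefficients, `|c| ≤ B N`, `N / log ^ C N ≤ x ^ d ≤ B N`, and `m` ranges over an ARBITRARY set of at least
`x / log ^ C N` integers in `[1, x]`, for example over the primes in `[1, x]`. -/
theorem result (δ B₁ : ℝ) (hδ : 0 < δ) (W B C T U : ℕ) :
    (∀ p : ℕ, ∃ N₀ : ℕ, ∀ N : ℕ, N₀ ≤ N → ∀ (ι : Type) [Fintype ι] (v : ι → ℤ),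
      (∀ i, |v i| ≤ B * N) → (energy p v : ℝ) * N ≤ Real.log N ^ C * (Fintype.card ι : ℝ) ^ (2 * p) →
      ∀ (M : ℕ) (α : Fin M → ℕ) (g : Fin M → ℕ → ℂ), Weights N B T α g →
        exceptions v (Real.log N ^ W) (Good δ B₁ T U B N α g) ≤ Fintype.card ι / Real.log N ^ U) ∧
    (∀ f : Polynomial ℤ, 1 ≤ f.natDegree → ∃ N₀ : ℕ, ∀ N : ℕ, N₀ ≤ N → ∀ x : ℕ,
      N / Real.log N ^ C ≤ (x : ℝ) ^ f.natDegree → x ^ f.natDegree ≤ B * N →
      ∀ D : Finset ℕ, D ⊆ Icc 1 x → x / Real.log N ^ C ≤ (D.card : ℝ) → ∀ c : ℤ, |c| ≤ B * N →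
      ∀ (M : ℕ) (α : Fin M → ℕ) (g : Fin M → ℕ → ℂ), Weights N B T α g →
        exceptions (fun m : {m // m ∈ D} => c + f.eval (m : ℤ)) (Real.log N ^ W) (Good δ B₁ T U B N α g) ≤
          D.card / Real.log N ^ U) := by
  classical
  refine ⟨fun p => general δ B₁ hδ p B B C T W U le_rfl, fun f hf => ?_⟩
  obtain ⟨p, B', hBB', N₁, h1⟩ := Pool.Agent.TH823.Fam.poly_family f hf B C
  obtain ⟨N₂, h2⟩ := Pool.Agent.H373R2.T7.ev_L' 1
  obtain ⟨N₀, h0⟩ := general δ B₁ hδ p B B' (C + 1 + C * (2 * p)) T W U hBB'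
  refine ⟨N₀ + N₁ + N₂ + 1, fun N hN x hx1 hx2 D hD hDc c hc M α g hw => ?_⟩
  have hL1 := h2 N (by omega)
  have hL0 : 0 < Real.log N := by linarith
  have hN1 : 1 ≤ N := by omega
  obtain ⟨h3, h4⟩ := h1 N (by omega) x hx2 (by rwa [div_le_iff₀' (by positivity)] at hx1) c hc
  have h5 := h0 N (by omega) {m // m ∈ D} (fun m => c + f.eval (m : ℤ)) (fun i => h3 _ (hD i.2)) (by
    have e1 := energy_sub p x (fun m => c + f.eval (m : ℤ)) D hD
    have e2 : (energy p (fun m : {m // m ∈ D} => c + f.eval (m : ℤ)) : ℝ) ≤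
        (Pool.Agent.H373R2.T7.energy p x (fun m => c + f.eval (m : ℤ)) : ℝ) := by exact_mod_cast e1
    have e3 : (x : ℝ) ≤ Real.log N ^ C * D.card := by rwa [div_le_iff₀' (by positivity)] at hDc
    rw [Fintype.card_coe]
    calc (energy p (fun m : {m // m ∈ D} => c + f.eval (m : ℤ)) : ℝ) * N
        ≤ (Pool.Agent.H373R2.T7.energy p x (fun m => c + f.eval (m : ℤ)) : ℝ) * N :=
          mul_le_mul_of_nonneg_right e2 (Nat.cast_nonneg _)
      _ ≤ Real.log N ^ (C + 1) * (x : ℝ) ^ (2 * p) := h4
      _ ≤ Real.log N ^ (C + 1) * (Real.log N ^ C * D.card) ^ (2 * p) := by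
          apply mul_le_mul_of_nonneg_left _ (by positivity)
          exact pow_le_pow_left₀ (Nat.cast_nonneg _) e3 _
      _ = Real.log N ^ (C + 1 + C * (2 * p)) * (D.card : ℝ) ^ (2 * p) := by
          rw [mul_pow, ← pow_mul, pow_add]; ring) M α g hw
  rw [Fintype.card_coe] at h5
  exact h5

end Pool.Agent.Results.MP_f3f922_nt.ThinFamilies
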